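import Pool.Agent.U730.GC.Est
import Pool.Agent.U730.GC.Low

/-!
# Almost all equations in one variable over one-relator groups

Let `a` and `b` be the exponent sums of `x_0` and `x_1` in the relator `r`. The homomorphism of the
free group to the integers with `x_0 ↦ b`, `x_1 ↦ -a` (with `x_0 ↦ 1`, `x_1 ↦ 0` if `a = 0`) and
`x_i ↦ 0` for the other generators kills `r`. Hence if `w(x) = 1` has a solution in the one-relator
group, then the exponent sum `e` of `x` in `w` divides the image `c` of the constants of `w`. This
condition is primitive recursive in `(r, w)`, and it holds for few words `w`: for fixed positions of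
the letters and fixed signs of the constants, `e` has to be one of the few divisors of `c`, which a
signed sum of many signs is with small probability, unless `c = 0`, which has small probability for
the same reason. In the free abelian group of rank two every equation with `e = -1` has a solution,
and these are a proportion of at least `1 / (6 √n)` of the words of length `n`.
-/

set_option autoImplicit false

namespace Pool.Agent.Results.MP_1ebeae_al.GenericCase

open Pool.Agent.U730.GC

/-- (1) For every `k ≥ 2` there is one primitive recursive function `f` of a relator `r` (a word in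
`x_0, …, x_{k-1}` and their inverses) and a word `w` in these and in the unknown and its inverse,
such that `w(x) = 1` has no solution in `⟨x_0, …, x_{k-1} | r⟩` if `f (r, w) ≠ 0`, and such that, for
every `ε > 0`, at most `C ((|r| + 1) n) ^ ε / √n` times the number `(2 (k + 1)) ^ n` of all words of
length `n` satisfy `f (r, w) = 0`, with `C` depending on `k` and `ε` only.
(2) Over `⟨x_0, x_1 | x_0 x_1 x_0⁻¹ x_1⁻¹⟩` at least `6 ^ n / (6 √n)` of the equations of length `n` have
a solution. -/
theorem result :
    (∀ k : ℕ, 2 ≤ k →
      ∃ f : List (Fin k × Bool) × List (Option (Fin k) × Bool) → ℕ, Primrec f ∧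
      (∀ (r : List (Fin k × Bool)) (w : List (Option (Fin k) × Bool)),
        f (r, w) ≠ 0 → ¬ Solvable r w) ∧
      ∀ ε : ℝ, 0 < ε → ∃ C : ℝ, 0 < C ∧ ∀ (r : List (Fin k × Bool)) (n : ℕ), 1 ≤ n →
        ((Finset.univ.filter fun w : Fin n → Option (Fin k) × Bool =>
          f (r, List.ofFn w) = 0).card : ℝ) ≤
        C * (((r.length : ℝ) + 1) * n) ^ ε / Real.sqrt n * (2 * ((k : ℝ) + 1)) ^ n) ∧
    ∀ n : ℕ, 1 ≤ n → (6 : ℝ) ^ n / (6 * Real.sqrt n) ≤
      (({w : Fin n → Option (Fin 2) × Bool |
        Solvable [(0, true), (1, true), (0, false), (1, false)] (List.ofFn w)}.ncard : ℕ) : ℝ) := by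
  refine ⟨fun k hk => ⟨cert ⟨0, by omega⟩ ⟨1, by omega⟩, primrec_cert _ _,
    fun r w h => not_solvable _ _ r w h, fun ε hε => ?_⟩, fun n hn => ?_⟩
  · exact estimate k ⟨0, by omega⟩ ⟨1, by omega⟩ (by simp) ε hε
  · refine (minus_one_many n hn).trans ?_
    rw [← Set.ncard_coe_finset]
    have h : ((Finset.univ.filter fun w : Fin n → Option (Fin 2) × Bool =>
        ∑ l ∈ Finset.univ.filter (fun l => (w l).1 = none), sg (w l).2 = -1 : Finset _) :
        Set (Fin n → Option (Fin 2) × Bool)) ⊆
        {w | Solvable [(0, true), (1, true), (0, false), (1, false)] (List.ofFn w)} := by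
      intro w hw
      rw [Finset.mem_coe, Finset.mem_filter] at hw
      refine solvable_of _ ?_
      rw [wt_ofFn, ← hw.2]
      unfold tot
      rw [Finset.sum_filter]
      apply Finset.sum_congr rfl
      intro l _
      by_cases h : (w l).1 = none <;> simp [h]
    exact_mod_cast Set.ncard_le_ncard h (Set.toFinite _)

end Pool.Agent.Results.MP_1ebeae_al.GenericCase
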